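import Pool.Agent.H.MP_68ef1b_nt.A

namespace Pool.Agent.H.MP_7b9a49_nt

open Finset Polynomial
open Pool.Agent.H.MP_68ef1b_nt (dig_sum sum_dig uniq fN fN_eq fL fL_eq ok)

def b : ℕ := 2 ^ 128
def R (n : ℕ) : ℕ := (b ^ n - 1) / (b - 1)

theorem R_eq (n : ℕ) : R n = ∑ j ∈ range n, b ^ j := (Nat.geomSum_eq (by norm_num [b]) _).symm

def OK (n B V : ℕ) : Bool := ok (B * R n) (b ^ n) (2 ^ 127 * R n) ((2 ^ 127 + 2 * B) * R n) V

def dg (n B V i : ℕ) : ℕ := (V + B * R n) / b ^ i % b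

noncomputable def P (n B V : ℕ) : ℤ[X] := ∑ i ∈ range n, monomial i ((dg n B V i : ℤ) - B)

theorem coeff_P (n B V i : ℕ) :
    (P n B V).coeff i = if i < n then (dg n B V i : ℤ) - B else 0 := by
  simp only [P, finset_sum_coeff, coeff_monomial, sum_ite_eq', mem_range]

theorem and_dig (X Y i : ℕ) : (X &&& Y) / b ^ i % b = (X / b ^ i % b) &&& (Y / b ^ i % b) := by
  rw [b, ← pow_mul, Nat.and_div_two_pow, Nat.and_mod_two_pow]

def Good (n B V : ℕ) (p : ℤ[X]) : Prop :=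
  (∀ i, |p.coeff i| ≤ B) ∧ p.natDegree ≤ n ∧ p.eval (b : ℤ) = V

theorem OK_spec {n B V : ℕ} (hB : B ≤ 2 ^ 50) (h : OK n B V = true) : Good n B V (P n B V) := by
  simp only [OK, ok, Bool.and_eq_true, decide_eq_true_eq, beq_iff_eq] at h
  obtain ⟨⟨h1, h2⟩, h3⟩ := h
  have s : ∑ j ∈ range n, dg n B V j * b ^ j = V + B * R n := by
    rw [← Nat.mod_eq_of_lt h1]; exact sum_dig _ _ _
  have T : ∀ i < n, 2 ^ 127 * R n / b ^ i % b = 2 ^ 127 := fun i hi => by
    rw [R_eq, mul_sum]; exact dig_sum b i (fun _ => 2 ^ 127) _ (fun _ _ => by norm_num [b]) hi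
  have d1 : ∀ i < n, dg n B V i < 2 ^ 127 := fun i hi => by
    have := and_dig (V + B * R n) (2 ^ 127 * R n) i
    rw [h2, T i hi, Nat.zero_div, Nat.zero_mod] at this
    have lt : dg n B V i < 2 ^ 128 := Nat.mod_lt _ (by norm_num [b])
    refine Nat.lt_pow_two_of_testBit _ fun j hj => ?_
    rcases hj.eq_or_lt with rfl | hj
    · have := congrArg (Nat.testBit · 127) this
      simp only [Nat.testBit_and, Nat.testBit_two_pow_self, Nat.zero_testBit, Bool.and_true] at this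
      exact this.symm
    · exact Nat.testBit_lt_two_pow (lt.trans_le (Nat.pow_le_pow_right (by norm_num) hj))
  have d2 : ∀ i < n, dg n B V i ≤ 2 * B := fun i hi => by
    have e : (2 ^ 127 + 2 * B) * R n - (V + B * R n)
        = ∑ j ∈ range n, (2 ^ 127 + 2 * B - dg n B V j) * b ^ j := by
      refine Nat.sub_eq_of_eq_add ?_
      rw [← s, ← sum_add_distrib, R_eq, mul_sum]
      refine sum_congr rfl fun j hj => ?_
      have := d1 j (mem_range.1 hj)
      rw [← add_mul, Nat.sub_add_cancel (by omega)]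
    have := and_dig ((2 ^ 127 + 2 * B) * R n - (V + B * R n)) (2 ^ 127 * R n) i
    rw [h3, T i hi, e, dig_sum b i _ _ (fun j _ => by norm_num [b]; omega) hi] at this
    have := this.trans_le Nat.and_le_left
    have := d1 i hi
    omega
  refine ⟨fun i => ?_, ?_, ?_⟩
  · rw [coeff_P]
    split_ifs with hi
    · have := d2 i hi
      rw [abs_le]; omega
    · simp
  · exact natDegree_le_iff_coeff_eq_zero.2 fun i hi => by rw [coeff_P, if_neg (by omega)]
  · have : ((∑ j ∈ range n, dg n B V j * b ^ j : ℕ) : ℤ) = (V + B * R n : ℕ) := by rw [s]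
    rw [R_eq] at this
    push_cast at this
    simp only [P, eval_finset_sum, eval_monomial, sub_mul, sum_sub_distrib, ← mul_sum, this]
    ring

theorem same {p q : ℤ[X]} (h1 : ∀ i, |p.coeff i| ≤ 2 ^ 120) (h2 : ∀ i, |q.coeff i| ≤ 2 ^ 120)
    (h : p.eval (b : ℤ) = q.eval (b : ℤ)) : p = q := by
  refine sub_eq_zero.1 (uniq b _ _ le_rfl (fun i => ?_) (by simp [h]))
  have := h1 i
  have := h2 i
  rw [coeff_sub]
  refine (abs_sub _ _).trans_lt ?_
  norm_num [b] at *; omega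

theorem Good.le {n B V : ℕ} {p : ℤ[X]} (hB : B ≤ 2 ^ 50) (h : Good n B V p) (i : ℕ) :
    |p.coeff i| ≤ 2 ^ 120 := by
  have := h.1 i
  norm_num at *; omega

theorem good_mul {n V W : ℕ} {p q : ℤ[X]} (hn : n ≤ 11000) (h1 : Good n (2 ^ 50) V p)
    (h2 : Good n (2 ^ 50) W q) (h3 : OK n (2 ^ 50) (V * W) = true) :
    Good n (2 ^ 50) (V * W) (p * q) := by
  have c := OK_spec le_rfl h3
  obtain ⟨a1, a2, a3⟩ := h1
  obtain ⟨b1, b2, b3⟩ := h2
  rw [← same (c.le le_rfl) (q := p * q) (fun i => ?_) (by rw [c.2.2]; simp [a3, b3])]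
  · exact c
  by_cases hi : i ≤ 22000
  · rw [coeff_mul]
    refine (abs_sum_le_sum_abs _ _).trans ((sum_le_card_nsmul _ _ (2 ^ 50 * 2 ^ 50)
      fun x _ => ?_).trans ?_)
    · rw [abs_mul]; exact mul_le_mul (a1 _) (b1 _) (abs_nonneg _) (by norm_num)
    · rw [Nat.card_antidiagonal, nsmul_eq_mul]; push_cast; omega
  · rw [coeff_eq_zero_of_natDegree_lt (natDegree_mul_le.trans_lt (by omega))]; simp

def chain (g : ℕ → Bool) : List ℕ → ℕ → Bool
  | [], _ => true
  | v :: l, W => fN v fun v => g v && fN (W * v) fun W => g W && chain g l W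

theorem chain_spec {n : ℕ} (hn : n ≤ 11000) (V : ℕ → ℕ) (l : List ℕ) : ∀ W p,
    chain (OK n (2 ^ 50)) (l.map V) W = true → Good n (2 ^ 50) W p →
      Good n (2 ^ 50) (W * (l.map V).prod) (p * (l.map fun d => P n (2 ^ 50) (V d)).prod) := by
  induction l with
  | nil => intro W p _ h; simpa using h
  | cons a l ih =>
    intro W p h hp
    simp only [List.map_cons, chain, fN_eq, Bool.and_eq_true, List.prod_cons, ← mul_assoc] at h ⊢
    exact ih _ _ h.2.2 (good_mul hn hp (OK_spec le_rfl h.1) h.2.1)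

theorem good_one (n : ℕ) : Good n (2 ^ 50) 1 1 :=
  ⟨fun i => by rw [coeff_one]; split_ifs <;> simp, by simp, by simp⟩

theorem chain_fin {n : ℕ} (hn : n ≤ 11000) (V : ℕ → ℕ) (l : List ℕ) (hl : l.Nodup)
    (h : chain (OK n (2 ^ 50)) (l.map V) 1 = true) :
    Good n (2 ^ 50) (l.map V).prod (∏ d ∈ l.toFinset, P n (2 ^ 50) (V d)) := by
  have := chain_spec hn V l 1 1 h (good_one n)
  rwa [one_mul, one_mul, ← List.prod_toFinset (fun d => P n (2 ^ 50) (V d)) hl] at this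

section gen
variable {n N : ℕ} (hn : n ≤ 11000) (hN : 0 < N) (V : ℕ → ℕ) (L : ℕ → List ℕ)
  (c2 : ∀ d ∈ N.divisors, (L d).Nodup ∧ (L d).toFinset = d.divisors ∧
    chain (OK n (2 ^ 50)) ((L d).map V) 1 = true ∧ ((L d).map V).prod + 1 = b ^ d)
include hn hN c2

theorem P_cyc (d : ℕ) : d ∈ N.divisors → P n (2 ^ 50) (V d) = cyclotomic d ℤ := by
  induction d using Nat.strong_induction_on with
  | _ d ih =>
    intro hd
    have d0 := Nat.pos_of_mem_divisors hd
    have sub := Nat.divisors_subset_of_dvd hN.ne' (Nat.dvd_of_mem_divisors hd)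
    obtain ⟨k1, k2, k3, k4⟩ := c2 d hd
    have g := chain_fin hn V _ k1 k3
    have e := same (g.le le_rfl) (q := X ^ d - 1) (fun i => by
      rw [coeff_sub, coeff_X_pow, coeff_one]; split_ifs <;> norm_num) (by
        have : ((((L d).map V).prod + 1 : ℕ) : ℤ) = (b ^ d : ℕ) := by rw [k4]
        rw [g.2.2]
        rw [Nat.cast_add, Nat.cast_pow, Nat.cast_one] at this
        simp only [eval_sub, eval_pow, eval_X, eval_one]
        linarith)
    rw [k2, ← prod_cyclotomic_eq_X_pow_sub_one d0 ℤ,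
      ← Nat.insert_self_properDivisors d0.ne', prod_insert Nat.self_notMem_properDivisors,
      prod_insert Nat.self_notMem_properDivisors, prod_congr rfl fun e he =>
        ih e (Nat.mem_properDivisors.1 he).2 (sub (Nat.properDivisors_subset_divisors he))] at e
    exact mul_right_cancel₀ (prod_ne_zero_iff.2 fun e _ => cyclotomic_ne_zero e ℤ) e

theorem fin (l : List ℕ) (hl : l.Nodup) (h : l.toFinset ⊆ N.divisors)
    (hc : chain (OK n (2 ^ 50)) (l.map V) 1 = true) (B : ℕ) (hB : B ≤ 2 ^ 50)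
    (ho : OK n B (l.map V).prod = true) (i : ℕ) :
    |(∏ d ∈ l.toFinset, cyclotomic d ℤ).coeff i| ≤ B ∧ (i < n →
      (∏ d ∈ l.toFinset, cyclotomic d ℤ).coeff i = dg n B (l.map V).prod i - B) := by
  have g := chain_fin hn V l hl hc
  have g2 := OK_spec hB ho
  rw [prod_congr rfl fun d hd => P_cyc hn hN V L c2 d (h hd)] at g
  rw [same (g.le le_rfl) (g2.le hB) (by rw [g.2.2, g2.2.2])]
  exact ⟨g2.1 i, fun hi => by rw [coeff_P, if_pos hi]⟩

theorem fin2 (l : List ℕ) (hl : l.Nodup) (h : l.toFinset ⊆ N.divisors)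
    (hc : chain (OK n (2 ^ 50)) (l.map V) 1 = true) (B : ℕ) (hB : B ≤ 2 ^ 50)
    (ho : OK n B (l.map V).prod = true) (i : ℕ) (hi : i < n)
    (hd : dg n B (l.map V).prod i = 2 * B) : ∃ f : ℤ[X], f ∣ X ^ N - 1 ∧ f.coeff i = B := by
  refine ⟨∏ d ∈ l.toFinset, cyclotomic d ℤ, ?_, ?_⟩
  · rw [← prod_cyclotomic_eq_X_pow_sub_one hN ℤ]
    exact prod_dvd_prod_of_subset _ _ _ h
  · rw [(fin hn hN V L c2 l hl h hc B hB ho i).2 hi, hd]; push_cast; ring

end gen

def Ev : List ℕ := [1, 6, 14, 21, 26, 38, 39, 57, 91, 133, 247, 546, 798, 1482, 3458, 5187]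
def Od : List ℕ := [2, 3, 7, 13, 19, 42, 78, 114, 182, 266, 273, 399, 494, 741, 1729, 10374]

def V (d : ℕ) : ℕ :=
  (Ev.map fun k => if d % k = 0 then b ^ (d / k) - 1 else 1).prod /
    (Od.map fun k => if d % k = 0 then b ^ (d / k) - 1 else 1).prod

def L (d : ℕ) : List ℕ := (Ev ++ Od).filter fun e => d % e == 0

theorem c2 : ∀ d ∈ Nat.divisors 10374, (L d).Nodup ∧ (L d).toFinset = d.divisors ∧
    chain (OK 10375 (2 ^ 50)) ((L d).map V) 1 = true ∧ ((L d).map V).prod + 1 = b ^ d := by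
  decide +kernel

theorem c3 : ∀ l ∈ [Ev, Od, 1 :: Od], l.Nodup ∧ l.toFinset ⊆ Nat.divisors 10374 ∧
    chain (OK 10375 (2 ^ 50)) (l.map V) 1 = true := by decide +kernel

theorem c4 : OK 10375 8415683487216 (Ev.map V).prod = true ∧
    OK 10375 8415683487216 (Od.map V).prod = true ∧
    OK 10375 9401697462912 ((1 :: Od).map V).prod = true ∧
    dg 10375 9401697462912 ((1 :: Od).map V).prod 2590 = 2 * 9401697462912 := by decide +kernel

theorem c5 : ((Nat.divisors 10374).filter fun d => Odd d.primeFactors.card) = Od.toFinset ∧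
    ((Nat.divisors 10374).filter fun d => Even d.primeFactors.card) = Ev.toFinset := by
  decide +kernel

theorem ev (i : ℕ) : |(∏ d ∈ Ev.toFinset, cyclotomic d ℤ).coeff i| ≤ (8415683487216 : ℕ) :=
  have h := c3 Ev (by simp)
  (fin (by norm_num) (by norm_num) V L c2 Ev h.1 h.2.1 h.2.2 _ (by norm_num) c4.1 i).1

theorem od (i : ℕ) : |(∏ d ∈ Od.toFinset, cyclotomic d ℤ).coeff i| ≤ (8415683487216 : ℕ) :=
  have h := c3 Od (by simp)
  (fin (by norm_num) (by norm_num) V L c2 Od h.1 h.2.1 h.2.2 _ (by norm_num) c4.2.1 i).1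

theorem big : ∃ f : ℤ[X], f ∣ X ^ 10374 - 1 ∧ f.coeff 2590 = (9401697462912 : ℕ) :=
  have h := c3 (1 :: Od) (by simp)
  fin2 (by norm_num) (by norm_num) V L c2 _ h.1 h.2.1 h.2.2 _ (by norm_num) c4.2.2.1
    2590 (by norm_num) c4.2.2.2

end Pool.Agent.H.MP_7b9a49_nt
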